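import Mathlib

namespace Pool.Agent.Results.MP_2489e7_pr.TwoKinks

open MeasureTheory Filter Topology Matrix

abbrev G := GL (Fin 2) ℝ

/-- operator norm for the Euclidean norm -/
noncomputable def opN (g : G) : ℝ := ‖toEuclideanCLM (n := Fin 2) (𝕜 := ℝ) (g : Matrix (Fin 2) (Fin 2) ℝ)‖

/-- convolution powers -/
noncomputable def convPow [MeasurableSpace G] (μ : Measure G) : ℕ → Measure G
  | 0 => Measure.dirac 1
  | n + 1 => μ.mconv (convPow μ n)

/-- the moment exponent -/
noncomputable def k [MeasurableSpace G] (μ : Measure G) (t : ℝ) : ℝ :=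
  limUnder atTop fun n : ℕ => Real.log (∫ g, opN g ^ t ∂(convPow μ n)) / n

/-- the closed semigroup generated by the support -/
def S [MeasurableSpace G] (μ : Measure G) : Set G :=
  closure (Subsemigroup.closure μ.support : Set G)

def StronglyIrreducible (T : Set G) : Prop :=
  ¬ ∃ 𝒱 : Finset (Submodule ℝ (Fin 2 → ℝ)), 𝒱.Nonempty ∧ (∀ V ∈ 𝒱, V ≠ ⊥ ∧ V ≠ ⊤) ∧
    ∀ g ∈ T, ∀ x ∈ ⋃ V ∈ 𝒱, (V : Set (Fin 2 → ℝ)),
      (g : Matrix (Fin 2) (Fin 2) ℝ) *ᵥ x ∈ ⋃ V ∈ 𝒱, (V : Set (Fin 2 → ℝ))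

def Proximal (T : Set G) : Prop :=
  ∃ g ∈ T, ∃ l : ℂ, ((g : Matrix (Fin 2) (Fin 2) ℝ).charpoly.aroots ℂ).count l = 1 ∧
    ∀ z ∈ (g : Matrix (Fin 2) (Fin 2) ℝ).charpoly.aroots ℂ, z ≠ l → ‖z‖ < ‖l‖

noncomputable def A : G := GeneralLinearGroup.mkOfDetNeZero !![1, 1; 0, 1] (by simp [det_fin_two])
noncomputable def B : G := GeneralLinearGroup.mkOfDetNeZero !![2, 0; 2, 2] (by simp [det_fin_two])

lemma A_val : (A : Matrix (Fin 2) (Fin 2) ℝ) = !![1, 1; 0, 1] := rfl
lemma B_val : (B : Matrix (Fin 2) (Fin 2) ℝ) = !![2, 0; 2, 2] := rfl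

lemma opN_nonneg (g : G) : 0 ≤ opN g := norm_nonneg _

lemma opN_cont : Continuous opN := by
  have h : Continuous (toEuclideanCLM (n := Fin 2) (𝕜 := ℝ)) :=
    LinearMap.continuous_of_finiteDimensional
      (toEuclideanCLM (n := Fin 2) (𝕜 := ℝ)).toAlgEquiv.toLinearEquiv.toLinearMap
  exact (h.comp Units.continuous_val).norm

lemma opN_low (g : G) : (g 0 0 + g 0 1) ^ 2 + (g 1 0 + g 1 1) ^ 2 ≤ 2 * opN g ^ 2 := by
  have h := (toEuclideanCLM (n := Fin 2) (𝕜 := ℝ) (g : Matrix (Fin 2) (Fin 2) ℝ)).le_opNorm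
    (WithLp.toLp 2 ![1, 1])
  have h2 := pow_le_pow_left₀ (norm_nonneg _) h 2
  rw [mul_pow, toEuclideanCLM_toLp, EuclideanSpace.norm_sq_eq, EuclideanSpace.norm_sq_eq] at h2
  simp [mulVec, dotProduct, Fin.sum_univ_two] at h2
  unfold opN
  linarith

lemma opN_up (g : G) {K : ℝ} (hK : 0 ≤ K)
    (h : g 0 0 ^ 2 + g 0 1 ^ 2 + g 1 0 ^ 2 + g 1 1 ^ 2 ≤ K ^ 2) : opN g ≤ K := by
  refine ContinuousLinearMap.opNorm_le_bound _ hK fun x => ?_
  refine (pow_le_pow_iff_left₀ (norm_nonneg _) (by positivity) two_ne_zero).1 ?_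
  rw [mul_pow, EuclideanSpace.norm_sq_eq, EuclideanSpace.norm_sq_eq]
  simp [ofLp_toEuclideanCLM, mulVec, dotProduct, Fin.sum_univ_two]
  have h1 := mul_le_mul_of_nonneg_right h (add_nonneg (sq_nonneg (x 0)) (sq_nonneg (x 1)))
  nlinarith [sq_nonneg (g 0 0 * x 1 - g 0 1 * x 0), sq_nonneg (g 1 0 * x 1 - g 1 1 * x 0)]

noncomputable def L (f : G → ℝ) (h : G) : ℝ := 1 / 9 * f (A * h) + 8 / 9 * f (B * h)

lemma L_nonneg {f : G → ℝ} (hf : ∀ g, 0 ≤ f g) (n : ℕ) (g : G) : 0 ≤ L^[n] f g := by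
  induction n generalizing g with
  | zero => exact hf g
  | succ n ih =>
    rw [Function.iterate_succ_apply', L]
    have := ih (A * g); have := ih (B * g); positivity

lemma eA (h : G) : (A * h) 0 0 = h 0 0 + h 1 0 ∧ (A * h) 0 1 = h 0 1 + h 1 1 ∧
    (A * h) 1 0 = h 1 0 ∧ (A * h) 1 1 = h 1 1 := by
  simp [A_val, mul_apply, Fin.sum_univ_two]

lemma eB (h : G) : (B * h) 0 0 = 2 * h 0 0 ∧ (B * h) 0 1 = 2 * h 0 1 ∧
    (B * h) 1 0 = 2 * h 0 0 + 2 * h 1 0 ∧ (B * h) 1 1 = 2 * h 0 1 + 2 * h 1 1 := by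
  simp [B_val, mul_apply, Fin.sum_univ_two]

lemma upper {t : ℝ} (ht : t ≤ -2) (n : ℕ) : ∀ (h : G) (c x y : ℝ), 0 < c → 1 ≤ x → 1 ≤ y →
    h 0 0 + h 0 1 = c * x → h 1 0 + h 1 1 = c * y →
    L^[n] (fun g => opN g ^ t) h ≤ c ^ t * max (1 / 9) (8 / 9 * 2 ^ t) ^ n / (x * y) := by
  induction n with
  | zero =>
    intro h c x y hc hx hy e1 e2
    have h1 := opN_low h
    rw [e1, e2] at h1
    have hxy : 1 ≤ x * y := by nlinarith
    have h2 : c * √(x * y) ≤ opN h := by
      refine (pow_le_pow_iff_left₀ (by positivity) (opN_nonneg h) two_ne_zero).1 ?_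
      rw [mul_pow, Real.sq_sqrt (by positivity)]
      nlinarith [sq_nonneg (c * x - c * y)]
    have h3 : 1 ≤ √(x * y) := Real.one_le_sqrt.2 hxy
    simp only [Function.iterate_zero, id, pow_zero, mul_one]
    calc opN h ^ t ≤ (c * √(x * y)) ^ t :=
          Real.rpow_le_rpow_of_nonpos (by positivity) h2 (by linarith)
      _ = c ^ t * √(x * y) ^ t := Real.mul_rpow hc.le (by positivity)
      _ ≤ c ^ t * √(x * y) ^ (-2 : ℝ) := by
          gcongr
      _ = c ^ t / (x * y) := by
          rw [Real.rpow_neg (by positivity), Real.rpow_two, Real.sq_sqrt (by positivity), div_eq_mul_inv]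
  | succ n ih =>
    intro h c x y hc hx hy e1 e2
    rw [Function.iterate_succ_apply', L]
    obtain ⟨a1, a2, a3, a4⟩ := eA h
    obtain ⟨b1, b2, b3, b4⟩ := eB h
    have h1 := ih (A * h) c (x + y) y hc (by linarith) hy (by rw [a1, a2]; linarith) (by rw [a3, a4]; linarith)
    have h2 := ih (B * h) (2 * c) x (x + y) (by positivity) hx (by linarith) (by rw [b1, b2]; linarith)
      (by rw [b3, b4]; linarith)
    rw [Real.mul_rpow (by norm_num) hc.le] at h2
    set M := max (1 / 9 : ℝ) (8 / 9 * 2 ^ t)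
    have m1 : 1 / 9 ≤ M := le_max_left _ _
    have m2 : 8 / 9 * 2 ^ t ≤ M := le_max_right _ _
    have hx0 : 0 < x := by linarith
    have hy0 : 0 < y := by linarith
    have hM : 0 < M := by linarith
    have p1 : 0 ≤ c ^ t * M ^ n / ((x + y) * y) := by positivity
    have p2 : 0 ≤ c ^ t * M ^ n / (x * (x + y)) := by positivity
    have q1 := mul_le_mul_of_nonneg_right m1 p1
    have q2 := mul_le_mul_of_nonneg_right m2 p2
    have q3 : M * (c ^ t * M ^ n / ((x + y) * y)) + M * (c ^ t * M ^ n / (x * (x + y)))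
        = c ^ t * M ^ (n + 1) / (x * y) := by field_simp; ring
    have q4 : 2 ^ t * c ^ t * M ^ n / (x * (x + y)) = 2 ^ t * (c ^ t * M ^ n / (x * (x + y))) := by ring
    rw [q4] at h2
    nlinarith

lemma f_nonneg (t : ℝ) (g : G) : 0 ≤ opN g ^ t := Real.rpow_nonneg (opN_nonneg g) t

lemma lowA {t : ℝ} (ht : t ≤ -2) (n : ℕ) : ∀ (h : G) (m : ℝ), 0 ≤ m →
    h 0 0 = 1 → h 0 1 = m → h 1 0 = 0 → h 1 1 = 1 →
    (1 / 9) ^ n * (m + n + 2) ^ t ≤ L^[n] (fun g => opN g ^ t) h := by
  induction n with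
  | zero =>
    intro h m hm e1 e2 e3 e4
    have h1 := opN_low h
    have h2 := opN_up h (K := m + 2) (by linarith) (by rw [e1, e2, e3, e4]; nlinarith)
    rw [e1, e2, e3, e4] at h1
    have h3 : 0 < opN h := by
      rcases (opN_nonneg h).lt_or_eq with h | h
      · exact h
      · rw [← h] at h1; nlinarith
    simpa using Real.rpow_le_rpow_of_nonpos h3 h2 (by linarith)
  | succ n ih =>
    intro h m hm e1 e2 e3 e4
    rw [Function.iterate_succ_apply', L]
    obtain ⟨a1, a2, a3, a4⟩ := eA h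
    have h1 := ih (A * h) (m + 1) (by linarith) (by rw [a1]; linarith) (by rw [a2]; linarith)
      (by rw [a3]; linarith) (by rw [a4]; linarith)
    have h2 := L_nonneg (f_nonneg t) n (B * h)
    have e : m + ((n + 1 : ℕ) : ℝ) + 2 = m + 1 + n + 2 := by push_cast; ring
    rw [e, pow_succ]
    linarith

lemma lowB {t : ℝ} (ht : t ≤ -2) (n : ℕ) : ∀ (h : G) (c m : ℝ), 0 < c → 0 ≤ m →
    h 0 0 = c → h 0 1 = 0 → h 1 0 = c * m → h 1 1 = c →
    (8 / 9 * 2 ^ t) ^ n * (c ^ t * (m + n + 2) ^ t) ≤ L^[n] (fun g => opN g ^ t) h := by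
  induction n with
  | zero =>
    intro h c m hc hm e1 e2 e3 e4
    have h1 := opN_low h
    have h2 := opN_up h (K := c * (m + 2)) (by positivity) (by
      rw [e1, e2, e3, e4]
      have : 0 ≤ c ^ 2 * m := by positivity
      nlinarith [sq_nonneg c])
    rw [e1, e2, e3, e4] at h1
    have h3 : 0 < opN h := by
      rcases (opN_nonneg h).lt_or_eq with h | h
      · exact h
      · rw [← h] at h1; nlinarith [sq_nonneg (c * m + c), pow_pos hc 2]
    have h4 := Real.rpow_le_rpow_of_nonpos h3 h2 (show t ≤ 0 by linarith)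
    rw [Real.mul_rpow hc.le (by linarith)] at h4
    simpa using h4
  | succ n ih =>
    intro h c m hc hm e1 e2 e3 e4
    rw [Function.iterate_succ_apply', L]
    obtain ⟨a1, a2, a3, a4⟩ := eB h
    have h1 := ih (B * h) (2 * c) (m + 1) (by linarith) (by linarith) (by rw [a1]; linarith) (by rw [a2]; linarith)
      (by rw [a3]; linarith) (by rw [a4]; linarith)
    have h2 := L_nonneg (f_nonneg t) n (A * h)
    have e : m + ((n + 1 : ℕ) : ℝ) + 2 = m + 1 + n + 2 := by push_cast; ring
    rw [Real.mul_rpow (by norm_num) hc.le] at h1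
    rw [e, pow_succ]
    linarith

lemma lim_Z {t : ℝ} (ht : t ≤ -2) :
    Tendsto (fun n : ℕ => Real.log (L^[n] (fun g => opN g ^ t) 1) / n) atTop
      (𝓝 (Real.log (max (1 / 9) (8 / 9 * 2 ^ t)))) := by
  set M := max (1 / 9 : ℝ) (8 / 9 * 2 ^ t) with hM
  have hM0 : 0 < M := lt_max_of_lt_left (by norm_num)
  have hup : ∀ n, L^[n] (fun g => opN g ^ t) 1 ≤ M ^ n := by
    intro n
    have := upper ht n 1 1 1 1 one_pos le_rfl le_rfl (by simp) (by simp)
    rwa [Real.one_rpow, one_mul, mul_one, div_one] at this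
  have hlow : ∀ n : ℕ, M ^ n * ((n : ℝ) + 2) ^ t ≤ L^[n] (fun g => opN g ^ t) 1 := by
    intro n
    rcases max_choice (1 / 9 : ℝ) (8 / 9 * 2 ^ t) with h | h
    · rw [hM, h]; simpa using lowA ht n 1 0 le_rfl (by simp) (by simp) (by simp) (by simp)
    · rw [hM, h]; simpa using lowB ht n 1 1 0 one_pos le_rfl (by simp) (by simp) (by simp) (by simp)
  have hl : Tendsto (fun n : ℕ => Real.log M + t * (Real.log ((n : ℝ) + 2) / n)) atTop (𝓝 (Real.log M)) := by
    have h1 : Tendsto (fun n : ℕ => (n : ℝ) + 2) atTop atTop :=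
      tendsto_atTop_add_const_right _ _ tendsto_natCast_atTop_atTop
    have h2 := (Real.tendsto_pow_log_div_mul_add_atTop 1 (-2) 1 one_ne_zero).comp h1
    have h3 : Tendsto (fun n : ℕ => Real.log ((n : ℝ) + 2) / n) atTop (𝓝 0) := by
      refine h2.congr fun n => ?_
      simp
    simpa using (h3.const_mul t).const_add (Real.log M)
  refine tendsto_of_tendsto_of_tendsto_of_le_of_le' hl tendsto_const_nhds ?_ ?_
  · filter_upwards [eventually_gt_atTop 0] with n hn
    have hn' : (0 : ℝ) < n := by exact_mod_cast hn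
    have h1 := Real.log_le_log (by positivity) (hlow n)
    rw [Real.log_mul (by positivity) (by positivity), Real.log_pow, Real.log_rpow (by positivity)] at h1
    rw [le_div_iff₀ hn']
    have : (Real.log M + t * (Real.log ((n : ℝ) + 2) / n)) * n = n * Real.log M + t * Real.log (n + 2) := by
      field_simp
    linarith
  · filter_upwards [eventually_gt_atTop 0] with n hn
    have hn' : (0 : ℝ) < n := by exact_mod_cast hn
    have h1 := Real.log_le_log (lt_of_lt_of_le (by positivity) (hlow n)) (hup n)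
    rw [Real.log_pow] at h1
    rw [div_le_iff₀ hn']
    linarith

lemma opN_mul (g h : G) : opN (g * h) ≤ opN g * opN h := by
  unfold opN
  rw [Units.val_mul, map_mul]
  exact norm_mul_le _ _

def Good (h : G) : Prop := 1 ≤ h 0 0 + h 0 1 ∧ 1 ≤ h 1 0 + h 1 1

lemma Good.one_le {h : G} (H : Good h) : 1 ≤ opN h := by
  have h1 := opN_low h
  have h2 := opN_nonneg h
  by_contra hc
  push Not at hc
  nlinarith [H.1, H.2]

lemma good_one : Good 1 := by simp [Good]

lemma opN_pos (g : G) : 0 < opN g := by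
  have h1 := opN_mul g g⁻¹
  rw [mul_inv_cancel] at h1
  have h2 := good_one.one_le
  rcases (opN_nonneg g).lt_or_eq with h | h
  · exact h
  · rw [← h] at h1; linarith

lemma L_pos {f : G → ℝ} (hf : ∀ g, 0 < f g) (n : ℕ) (g : G) : 0 < L^[n] f g := by
  induction n generalizing g with
  | zero => exact hf g
  | succ n ih =>
    rw [Function.iterate_succ_apply', L]
    have := ih (A * g); have := ih (B * g); positivity

lemma L_mono {f f' : G → ℝ} {c c' : ℝ} (hf : ∀ g, Good g → c * f g ≤ c' * f' g) (n : ℕ) (g : G)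
    (hg : Good g) : c * L^[n] f g ≤ c' * L^[n] f' g := by
  induction n generalizing g with
  | zero => exact hf g hg
  | succ n ih =>
    rw [Function.iterate_succ_apply', L, Function.iterate_succ_apply', L]
    obtain ⟨a1, a2, a3, a4⟩ := eA g
    obtain ⟨b1, b2, b3, b4⟩ := eB g
    obtain ⟨g1, g2⟩ := hg
    have h1 := ih (A * g) ⟨by rw [a1, a2]; linarith, by rw [a3, a4]; linarith⟩
    have h2 := ih (B * g) ⟨by rw [b1, b2]; linarith, by rw [b3, b4]; linarith⟩
    nlinarith

lemma L_one (n : ℕ) : L^[n] (fun _ => 1) = fun _ => 1 :=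
  Function.iterate_fixed (by funext g; simp only [L]; norm_num) n

lemma L_shift (f : G → ℝ) (h : G) (n : ℕ) (g : G) : L^[n] (fun g => f (g * h)) g = L^[n] f (g * h) := by
  induction n generalizing g with
  | zero => rfl
  | succ n ih => rw [Function.iterate_succ_apply', L, Function.iterate_succ_apply', L, ih, ih, mul_assoc, mul_assoc]

lemma ex_lim (t : ℝ) : ∃ l, Tendsto (fun n : ℕ => Real.log (L^[n] (fun g => opN g ^ t) 1) / n) atTop (𝓝 l) := by
  set f := fun g => opN g ^ t with hf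
  have hp : ∀ n g, 0 < L^[n] f g := L_pos fun g => Real.rpow_pos_of_pos (opN_pos g) t
  rcases le_total 0 t with ht | ht
  · have h1 : ∀ n h, 1 * L^[n] f h ≤ L^[n] f 1 * f h := by
      intro n h
      have := L_mono (f := fun g => f (g * h)) (f' := f) (c := 1) (c' := f h) (fun g _ => by
        rw [one_mul, hf, ← Real.mul_rpow (opN_nonneg _) (opN_nonneg _), mul_comm (opN h)]
        exact Real.rpow_le_rpow (opN_nonneg _) (opN_mul g h) ht) n 1 good_one
      rw [L_shift, one_mul h] at this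
      linarith
    have hs : Subadditive fun n => Real.log (L^[n] f 1) := by
      intro m n
      have := L_mono (fun g _ => h1 n g) m 1 good_one
      rw [← Function.iterate_add_apply, one_mul] at this
      rw [← Real.log_mul (hp _ _).ne' (hp _ _).ne', mul_comm]
      exact Real.log_le_log (hp _ _) this
    refine ⟨_, hs.tendsto_lim ⟨0, ?_⟩⟩
    rintro _ ⟨n, rfl⟩
    have := L_mono (f := fun _ => 1) (f' := f) (c := 1) (c' := 1) (fun g hg => by
      simpa using Real.one_le_rpow hg.one_le ht) n 1 good_one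
    rw [L_one, one_mul, one_mul] at this
    exact div_nonneg (Real.log_nonneg this) (Nat.cast_nonneg n)
  · have h1 : ∀ n h, L^[n] f 1 * f h ≤ 1 * L^[n] f h := by
      intro n h
      have := L_mono (f' := fun g => f (g * h)) (f := f) (c' := 1) (c := f h) (fun g _ => by
        rw [one_mul, hf, ← Real.mul_rpow (opN_nonneg _) (opN_nonneg _), mul_comm (opN h)]
        exact Real.rpow_le_rpow_of_nonpos (opN_pos _) (opN_mul g h) ht) n 1 good_one
      rw [L_shift, one_mul h] at this
      linarith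
    have hs : Subadditive fun n => -Real.log (L^[n] f 1) := by
      intro m n
      have := L_mono (fun g _ => h1 n g) m 1 good_one
      rw [← Function.iterate_add_apply, one_mul] at this
      have h2 := Real.log_le_log (mul_pos (hp _ _) (hp _ _)) this
      rw [Real.log_mul (hp _ _).ne' (hp _ _).ne'] at h2
      linarith
    have := (hs.tendsto_lim ⟨0, ?_⟩).neg
    · exact ⟨_, this.congr fun n => by ring⟩
    rintro _ ⟨n, rfl⟩
    have := L_mono (f' := fun _ => 1) (f := f) (c := 1) (c' := 1) (fun g hg => by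
      simpa using Real.rpow_le_one_of_one_le_of_nonpos hg.one_le ht) n 1 good_one
    rw [L_one, one_mul, one_mul] at this
    exact div_nonneg (neg_nonneg.2 (Real.log_nonpos (hp _ _).le this)) (Nat.cast_nonneg n)

variable [MeasurableSpace G] [BorelSpace G]

noncomputable def mu : Measure G :=
  ENNReal.ofReal (1 / 9) • Measure.dirac A + ENNReal.ofReal (8 / 9) • Measure.dirac B

omit [BorelSpace G] in
lemma mu_prob : IsProbabilityMeasure mu := ⟨by
  simp only [mu, Measure.coe_add, Measure.coe_smul, Pi.add_apply, Pi.smul_apply, measure_univ,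
    smul_eq_mul, mul_one]
  rw [← ENNReal.ofReal_add (by norm_num) (by norm_num)]; norm_num⟩

omit [MeasurableSpace G] [BorelSpace G] in
lemma sc : SecondCountableTopology G := by
  have h1 : SecondCountableTopology (Matrix (Fin 2) (Fin 2) ℝ) :=
    inferInstanceAs (SecondCountableTopology (Fin 2 → Fin 2 → ℝ))
  have h2 : SecondCountableTopology (Matrix (Fin 2) (Fin 2) ℝ)ᵐᵒᵖ :=
    MulOpposite.opHomeomorph.symm.secondCountableTopology
  exact Units.isEmbedding_embedProduct.secondCountableTopology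

lemma conv_prob (n : ℕ) : IsProbabilityMeasure (convPow mu n) := by
  have := sc
  have := mu_prob
  induction n with
  | zero => unfold convPow; infer_instance
  | succ n ih => unfold convPow; infer_instance

lemma lint (n : ℕ) : ∀ f : G → ℝ, Measurable f → (∀ g, 0 ≤ f g) →
    ∫⁻ g, ENNReal.ofReal (f g) ∂(convPow mu n) = ENNReal.ofReal (L^[n] f 1) := by
  have := sc
  induction n with
  | zero => intro f hf _; simp [convPow]
  | succ n ih =>
    intro f hf h0
    have := conv_prob n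
    have hL : Measurable (L f) := by unfold L; fun_prop
    rw [Function.iterate_succ_apply, ← ih _ hL (L_nonneg h0 1), convPow,
      Measure.lintegral_mconv (by fun_prop), mu, lintegral_add_measure, lintegral_smul_measure,
      lintegral_smul_measure, lintegral_dirac, lintegral_dirac, smul_eq_mul, smul_eq_mul,
      ← lintegral_const_mul _ (by fun_prop), ← lintegral_const_mul _ (by fun_prop),
      ← lintegral_add_left (by fun_prop)]
    refine lintegral_congr fun g => ?_
    rw [L, ENNReal.ofReal_add (by have := h0 (A * g); positivity) (by have := h0 (B * g); positivity),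
      ENNReal.ofReal_mul (by norm_num), ENNReal.ofReal_mul (by norm_num)]

lemma int_eq (t : ℝ) (n : ℕ) : ∫ g, opN g ^ t ∂(convPow mu n) = L^[n] (fun g => opN g ^ t) 1 := by
  have hm : Measurable fun g => opN g ^ t := opN_cont.measurable.pow_const t
  have := sc
  rw [integral_eq_lintegral_of_nonneg_ae (Eventually.of_forall (f_nonneg t)) hm.aestronglyMeasurable,
    lint n _ hm (f_nonneg t), ENNReal.toReal_ofReal (L_nonneg (f_nonneg t) n 1)]

lemma k_neg {t : ℝ} (ht : t ≤ -2) : k mu t = Real.log (max (1 / 9) (8 / 9 * 2 ^ t)) := by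
  unfold k
  simp only [int_eq]
  exact (lim_Z ht).limUnder_eq

lemma k_zero : k mu 0 = 0 := by
  unfold k
  have := conv_prob
  simp only [Real.rpow_zero, integral_const, probReal_univ, smul_eq_mul, mul_one, Real.log_one, zero_div]
  exact tendsto_const_nhds.limUnder_eq

lemma k_left {t : ℝ} (ht : t ≤ -3) : k mu t = Real.log (1 / 9) := by
  rw [k_neg (by linarith), max_eq_left]
  have : (2 : ℝ) ^ t ≤ 2 ^ (-3 : ℝ) := Real.rpow_le_rpow_of_exponent_le (by norm_num) ht
  have e : (2 : ℝ) ^ (-3 : ℝ) = 1 / 8 := by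
    rw [Real.rpow_neg (by norm_num)]; norm_num
  rw [e] at this
  linarith

lemma k_mid {t : ℝ} (h1 : -3 ≤ t) (ht : t ≤ -2) : k mu t = Real.log (8 / 9) + t * Real.log 2 := by
  rw [k_neg ht, max_eq_right, Real.log_mul (by norm_num) (by positivity), Real.log_rpow (by norm_num)]
  have : (2 : ℝ) ^ (-3 : ℝ) ≤ 2 ^ t := Real.rpow_le_rpow_of_exponent_le (by norm_num) h1
  have e : (2 : ℝ) ^ (-3 : ℝ) = 1 / 8 := by
    rw [Real.rpow_neg (by norm_num)]; norm_num
  rw [e] at this
  linarith

lemma memS : A ∈ S mu ∧ B ∈ S mu ∧ A * B ∈ S mu := by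
  have hA : A ∈ mu.support := by
    rw [Measure.mem_support_iff_forall]
    intro U hU
    have : A ∈ U := mem_of_mem_nhds hU
    simp [mu, this]
  have hB : B ∈ mu.support := by
    rw [Measure.mem_support_iff_forall]
    intro U hU
    have : B ∈ U := mem_of_mem_nhds hU
    simp [mu, this]
  exact ⟨subset_closure (Subsemigroup.subset_closure hA), subset_closure (Subsemigroup.subset_closure hB),
    subset_closure (mul_mem (Subsemigroup.subset_closure hA) (Subsemigroup.subset_closure hB))⟩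

theorem result : ∃ μ : Measure G, IsProbabilityMeasure μ ∧ IsCompact μ.support ∧
    StronglyIrreducible (S μ) ∧ Proximal (S μ) ∧
    (∀ t, Tendsto (fun n : ℕ => Real.log (∫ g, opN g ^ t ∂(convPow μ n)) / n) atTop (𝓝 (k μ t))) ∧
    ∃ s₁ s₂ : ℝ, s₁ ≠ s₂ ∧ ¬ AnalyticAt ℝ (k μ) s₁ ∧ ¬ AnalyticAt ℝ (k μ) s₂ := by
  refine ⟨mu, mu_prob, ?_, ?_, ?_, fun t => tendsto_nhds_limUnder (by simpa only [int_eq] using ex_lim t), ?_⟩
  · have hf : ({A, B} : Set G).Finite := Set.toFinite _
    refine (hf.subset (Measure.support_subset_of_isClosed hf.isClosed ?_)).isCompact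
    rw [mem_ae_iff]
    simp [mu]
  · rintro ⟨𝒱, ⟨V, hV⟩, h1, h2⟩
    obtain ⟨x, hx, hx1⟩ : ∃ x ∈ ⋃ V ∈ 𝒱, (V : Set (Fin 2 → ℝ)), x 1 ≠ 0 := by
      obtain ⟨x, hx, hx0⟩ := Submodule.exists_mem_ne_zero_of_ne_bot (h1 V hV).1
      have hx' : x ∈ ⋃ V ∈ 𝒱, (V : Set (Fin 2 → ℝ)) := Set.mem_biUnion hV hx
      by_cases h : x 1 = 0
      · refine ⟨_, h2 B memS.2.1 x hx', ?_⟩
        have : x 0 ≠ 0 := fun h0 => hx0 (by ext i; fin_cases i <;> simp [h0, h])
        simp [B_val, mulVec, dotProduct, Fin.sum_univ_two, h, this]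
      · exact ⟨x, hx', h⟩
    have hn : ∀ n : ℕ, ![x 0 + n * x 1, x 1] ∈ ⋃ V ∈ 𝒱, (V : Set (Fin 2 → ℝ)) := by
      intro n
      induction n with
      | zero => convert hx using 1; ext i; fin_cases i <;> simp
      | succ n ih =>
        convert h2 A memS.1 _ ih using 1
        ext i; fin_cases i <;> simp [A_val, mulVec, dotProduct, Fin.sum_univ_two]; ring
    simp only [Set.mem_iUnion, exists_prop] at hn
    choose W hW hW' using hn
    obtain ⟨m, n, hmn, he⟩ := Finite.exists_ne_map_eq_of_infinite (fun n => (⟨W n, hW n⟩ : 𝒱))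
    have he' : W m = W n := congrArg Subtype.val he
    have a1 : ![x 0 + m * x 1, x 1] ∈ W n := he' ▸ hW' m
    have a2 : ![x 0 + n * x 1, x 1] ∈ W n := hW' n
    have hd : (m : ℝ) - n ≠ 0 := sub_ne_zero.2 (by exact_mod_cast hmn)
    refine (h1 _ (hW n)).2 (eq_top_iff.2 fun y _ => ?_)
    have := (W n).add_mem ((W n).smul_mem ((y 0 - y 1 / x 1 * (x 0 + n * x 1)) / ((m - n) * x 1))
      ((W n).sub_mem a1 a2)) ((W n).smul_mem (y 1 / x 1) a2)
    convert this using 1
    ext i; fin_cases i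
    · simp; field_simp; ring
    · simp; field_simp
  · have h5 : ((√5 : ℝ) : ℂ) ^ 2 = 5 := by
      rw [← Complex.ofReal_pow, Real.sq_sqrt (by norm_num)]; simp
    have h50 : 0 < √5 := by positivity
    have hr : ((A * B : G) : Matrix (Fin 2) (Fin 2) ℝ).charpoly.aroots ℂ
        = {((3 + √5 : ℝ) : ℂ), ((3 - √5 : ℝ) : ℂ)} := by
      have e : (((A * B : G) : Matrix (Fin 2) (Fin 2) ℝ).charpoly).map (algebraMap ℝ ℂ)
          = (Polynomial.X - Polynomial.C ((3 + √5 : ℝ) : ℂ)) * (Polynomial.X - Polynomial.C ((3 - √5 : ℝ) : ℂ)) := by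
        rw [charpoly_fin_two]
        apply Polynomial.funext
        intro z
        simp [A_val, B_val, trace_fin_two, det_fin_two, mul_apply, Fin.sum_univ_two]
        linear_combination h5
      rw [Polynomial.aroots, e, Polynomial.roots_mul (mul_ne_zero (Polynomial.X_sub_C_ne_zero _)
        (Polynomial.X_sub_C_ne_zero _)), Polynomial.roots_X_sub_C, Polynomial.roots_X_sub_C]
      rfl
    have hne : ((3 + √5 : ℝ) : ℂ) ≠ ((3 - √5 : ℝ) : ℂ) := by
      intro h
      have := Complex.ofReal_injective h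
      linarith
    refine ⟨A * B, memS.2.2, ((3 + √5 : ℝ) : ℂ), ?_, ?_⟩
    · rw [hr, Multiset.insert_eq_cons, Multiset.count_cons_self, Multiset.count_singleton, if_neg hne]
    · intro z hz hz'
      rw [hr, Multiset.insert_eq_cons, Multiset.mem_cons, Multiset.mem_singleton] at hz
      rcases hz with h | h
      · exact absurd h hz'
      · rw [h, Complex.norm_real, Complex.norm_real, Real.norm_eq_abs, Real.norm_eq_abs,
          abs_of_pos (show 0 < 3 + √5 by linarith), abs_lt]
        constructor <;> linarith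
  · have hlin : ∀ s, AnalyticAt ℝ (fun t : ℝ => Real.log (8 / 9) + t * Real.log 2) s := fun s => by fun_prop
    obtain ⟨s, hs, hs'⟩ : ∃ s, -3 < s ∧ ¬ AnalyticAt ℝ (k mu) s := by
      by_contra hc
      push Not at hc
      have h1 : AnalyticOnNhd ℝ (k mu) (Set.Ioi (-3)) := fun s hs => hc s hs
      have h2 := h1.eqOn_of_preconnected_of_eventuallyEq (fun s _ => hlin s) isPreconnected_Ioi
        (z₀ := -5 / 2) (by norm_num) (by
          filter_upwards [Ioo_mem_nhds (show (-3 : ℝ) < -5 / 2 by norm_num) (show (-5 / 2 : ℝ) < -2 by norm_num)]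
            with t ht
          exact k_mid ht.1.le ht.2.le)
      have h3 := h2 (show (0 : ℝ) ∈ Set.Ioi (-3) by norm_num)
      rw [k_zero] at h3
      have := Real.log_neg (show (0 : ℝ) < 8 / 9 by norm_num) (by norm_num)
      simp only [zero_mul, add_zero] at h3
      linarith
    refine ⟨-3, s, hs.ne, fun h => ?_, hs'⟩
    have h1 : AnalyticOnNhd ℝ (k mu) (Set.Iio (-2)) := by
      intro t ht
      rcases lt_trichotomy t (-3) with h3 | h3 | h3
      · refine (analyticAt_const (v := Real.log (1 / 9))).congr ?_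
        filter_upwards [Iio_mem_nhds h3] with u hu
        exact (k_left (le_of_lt hu)).symm
      · exact h3 ▸ h
      · refine (hlin t).congr ?_
        filter_upwards [Ioo_mem_nhds h3 ht] with u hu
        exact (k_mid hu.1.le hu.2.le).symm
    have h2 := h1.eqOn_of_preconnected_of_eventuallyEq (fun s _ => hlin s) isPreconnected_Iio
      (z₀ := -5 / 2) (by norm_num) (by
        filter_upwards [Ioo_mem_nhds (show (-3 : ℝ) < -5 / 2 by norm_num) (show (-5 / 2 : ℝ) < -2 by norm_num)]
          with t ht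
        exact k_mid ht.1.le ht.2.le)
    have h3 := h2 (show (-3 : ℝ) ∈ Set.Iio (-2) by norm_num)
    have h4 := h2 (show (-4 : ℝ) ∈ Set.Iio (-2) by norm_num)
    rw [k_left (by norm_num)] at h3 h4
    have := Real.log_pos (show (1 : ℝ) < 2 by norm_num)
    simp only at h3 h4
    linarith

end Pool.Agent.Results.MP_2489e7_pr.TwoKinks
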